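import Pool.Agent.Q283.SP.Main
import Pool.Agent.Q7.LK.All3
import Pool.Agent.Q7.LK.Uni
import Pool.Agent.Q7.LK.Fin2
import Pool.Agent.Q262.SP.NT
import Pool.Agent.Q190.SP.LT
import Pool.Agent.Q214.SP.COR
import Pool.Agent.Q151.SP.LA3
import Pool.Agent.Q53.SP.DES
import Pool.Agent.Q123.SP.SATV
import Pool.Agent.Q193.SP.KUM
import Pool.Agent.Q124.SP.PLC
import Pool.Agent.Q123.SP.ConM
import Pool.Agent.Q123.SP.CRI
import Pool.Agent.Q124.SP.REGC
import Pool.Agent.Q195.SP.SAT1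
import Pool.Agent.Q285.SP.BF
import Pool.Agent.Q150.SP.TF

/-!
# Project SP (helper283): all parts together
-/

set_option autoImplicit false

namespace Pool.Agent.Q283.SP

open Pool.Agent.Q7.LK (t_BAS t_CPL t_HS2 t_CHEB t_ATL t_SHAREM)

theorem nf_adjoin {Ω : Type} [Field Ω] [CharZero Ω] [Algebra.IsAlgebraic ℚ Ω] {F : IntermediateField ℚ Ω} [NumberField F]
    (x : Ω) : NumberField (F ⊔ IntermediateField.adjoin ℚ {x} : IntermediateField ℚ Ω) := by
  have hfinF : FiniteDimensional ℚ F := inferInstance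
  have hfinx : FiniteDimensional ℚ (IntermediateField.adjoin ℚ {x}) := by
    apply IntermediateField.adjoin.finiteDimensional
    exact Algebra.IsIntegral.isIntegral x
  have hfinL : FiniteDimensional ℚ (F ⊔ IntermediateField.adjoin ℚ {x} : IntermediateField ℚ Ω) :=
    IntermediateField.finiteDimensional_sup F _
  exact ⟨⟩

theorem t_NT : S_NT := Pool.Agent.Q262.SP.nt
theorem t_LT : S_LT := Pool.Agent.Q190.SP.lt t_NT
theorem t_COR : S_COR := Pool.Agent.Q214.SP.cor t_LT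
theorem t_LA3 : S_LA3 := Pool.Agent.Q151.SP.la3
theorem t_DES : S_DES := Pool.Agent.Q53.SP.des t_COR t_LA3 t_NT
theorem t_SATV : S_SATV := Pool.Agent.Q123.SP.satv
theorem t_KUM : S_KUM := Pool.Agent.Q193.SP.kum
theorem t_PLC : S_PLC := Pool.Agent.Q124.SP.plc
theorem t_CON : S_CON := Pool.Agent.Q123.SP.con t_BAS t_CPL t_PLC t_NT
theorem t_CRI : S_CRI := Pool.Agent.Q123.SP.cri t_CON t_SATV t_KUM
theorem t_REGC : S_REGC := Pool.Agent.Q124.SP.regc t_BAS t_HS2 t_CHEB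
theorem t_SAT1 : S_SAT1 := Pool.Agent.Q195.SP.sat1
theorem t_BF : S_BF := Pool.Agent.Q285.SP.bf t_CON t_SAT1 t_KUM t_LT t_NT t_REGC t_BAS t_ATL
theorem t_TF : S_TF := Pool.Agent.Q150.SP.tf t_NT
theorem t_MAINP : S_MAINP := mainp t_SHAREM t_ATL t_DES t_CRI

end Pool.Agent.Q283.SP
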