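import Pool.Agent.Q283.LS.Def
import Pool.Agent.Q7.LK.Stm3

/-!
# Project SP (helper283): Schneider's conjecture at odd primes for Kummer extensions, definitions

`p` is an odd prime.  All number fields are subfields of an algebraic closure `Ω` of `ℚ`.  For a number field `K`, a set `S` of
prime numbers which contains `p`, and `r ≥ 1` we consider the group `Ш¹(O_(K, S), Z_p(r))`, and its rank.

`M = (ZMod p → ℤ_p)` is the group ring of the group `ℤ/p` over `ℤ_p`, with the product `conv`; `sh s` is the multiplication by the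
group element `s`.  The elements `m` with `∑ m i = 0` form the ideal generated by `π = (basis vector of 0) - (basis vector of 1)`, which is
a module over `O = ℤ_p[X] / (1 + X + .. + X^(p-1)) = ℤ_p[ζ_p]`, free of rank `1`.
-/

set_option autoImplicit false

namespace Pool.Agent.Q283.SP

open NumberField IsDedekindDomain
open Pool.Agent.Q283.LS (Dec Inr)

section

variable {Ω : Type} [Field Ω] [CharZero Ω]

/-- the `p`-adic cyclotomic character -/
noncomputable def chi (p : ℕ) [Fact p.Prime] (σ : Ω ≃ₐ[ℚ] Ω) : ℤ_[p] :=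
  (cyclotomicCharacter Ω p (σ : Ω ≃+* Ω) : ℤ_[p])

open Classical in
/-- the exponent `s` with `σ x = ζ ^ s x` -/
noncomputable def ex {p : ℕ} (ζ x : Ω) (σ : Ω ≃ₐ[ℚ] Ω) : ZMod p :=
  if h : ∃ s : ZMod p, σ x = ζ ^ s.val * x then h.choose else 0

variable {p : ℕ} [Fact p.Prime]

/-- `f` is a continuous cocycle on the group `H`, which acts on `ℤ_p` by the character `ρ` -/
structure IsCoc {H : Subgroup (Ω ≃ₐ[ℚ] Ω)} (ρ f : H → ℤ_[p]) : Prop where
  cont : Continuous f
  coc : ∀ σ τ : H, f (σ * τ) = f σ + ρ σ * f τ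

/-- `f` is a cocycle of `Ш¹`: it is trivial on the inertia groups of all places not above the prime numbers of `S`, and it is
a coboundary on the decomposition groups of the places above the prime numbers of `S` (`p` is odd and the fields
contain the `p`-th roots of unity, so there are no real places) -/
structure InSha (S : Set ℕ) {H : Subgroup (Ω ≃ₐ[ℚ] Ω)} (ρ f : H → ℤ_[p]) : Prop where
  coc : IsCoc ρ f
  unr : ∀ (l : ℕ) [Fact l.Prime], l ∉ S → ∀ (j : Ω →+* PadicAlgCl l) (σ : H), Inr j σ.1 → f σ = 0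
  loc : ∀ (l : ℕ) [Fact l.Prime], l ∈ S → ∀ j : Ω →+* PadicAlgCl l, ∃ b : ℤ_[p], ∀ σ : H, Dec j σ.1 →
    f σ = (ρ σ - 1) * b

/-- the cocycles `f i` are independent over `ℤ_p` modulo coboundaries -/
def Ind {H : Subgroup (Ω ≃ₐ[ℚ] Ω)} (ρ : H → ℤ_[p]) {t : ℕ} (f : Fin t → H → ℤ_[p]) : Prop :=
  ∀ a : Fin t → ℤ_[p], (∃ b : ℤ_[p], ∀ σ, ∑ i, a i * f i σ = (ρ σ - 1) * b) → a = 0

/-- the rank of `Ш¹(O_(K, S), Z_p(r))` is at least `t` -/
def RankSha (p : ℕ) [Fact p.Prime] (S : Set ℕ) (r : ℕ) (K : IntermediateField ℚ Ω) (t : ℕ) : Prop :=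
  ∃ f : Fin t → K.fixingSubgroup → ℤ_[p],
    (∀ i, InSha S (fun σ : K.fixingSubgroup => chi p σ.1 ^ r) (f i)) ∧
    Ind (fun σ : K.fixingSubgroup => chi p σ.1 ^ r) f

end

section

variable {p : ℕ}

/-- the multiplication by the element `s` of the group `ℤ/p` -/
def sh {R : Type} (s : ZMod p) (m : ZMod p → R) : ZMod p → R := fun i => m (i - s)

/-- the linear form `m ↦ ∑ i m(i)` modulo `p` (`π ↦ -1`); it kills the multiples `m - sh 1 m` of `π` with `∑ m i = 0` -/
noncomputable def lam [Fact p.Prime] (m : ZMod p → ℤ_[p]) : ZMod p := ∑ i, i * PadicInt.toZMod (m i)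

end

section

variable {Ω : Type} [Field Ω] [CharZero Ω] {p : ℕ} [Fact p.Prime]

/-- the action of `σ`, which multiplies by `ρ σ` and by the group element `s σ` -/
noncomputable def act {H : Subgroup (Ω ≃ₐ[ℚ] Ω)} (ρ : H → ℤ_[p]) (s : H → ZMod p) (σ : H) (m : ZMod p → ℤ_[p]) :
    ZMod p → ℤ_[p] :=
  ρ σ • sh (s σ) m

/-- a continuous cocycle on `H` with values in the group ring -/
structure IsCocV {H : Subgroup (Ω ≃ₐ[ℚ] Ω)} (ρ : H → ℤ_[p]) (s : H → ZMod p) (f : H → ZMod p → ℤ_[p]) : Prop where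
  cont : Continuous f
  coc : ∀ σ τ : H, f (σ * τ) = f σ + act ρ s σ (f τ)

/-- `f` is a cocycle with values in the elements `m` with `∑ m i = 0`, whose restrictions to the decomposition groups of all finite
places have finite order -/
structure InSelV {H : Subgroup (Ω ≃ₐ[ℚ] Ω)} (ρ : H → ℤ_[p]) (s : H → ZMod p) (f : H → ZMod p → ℤ_[p]) : Prop where
  coc : IsCocV ρ s f
  sum : ∀ σ, ∑ i, f σ i = 0
  tor : ∀ (l : ℕ) [Fact l.Prime] (j : Ω →+* PadicAlgCl l), ∃ (n : ℤ_[p]) (v : ZMod p → ℤ_[p]), n ≠ 0 ∧ ∑ i, v i = 0 ∧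
    ∀ σ : H, Dec j σ.1 → n • f σ = act ρ s σ v - v

/-- the cocycles `f i` are independent over `ℤ_p` modulo coboundaries -/
def IndV {H : Subgroup (Ω ≃ₐ[ℚ] Ω)} (ρ : H → ℤ_[p]) (s : H → ZMod p) {t : ℕ} (f : Fin t → H → ZMod p → ℤ_[p]) : Prop :=
  ∀ a : Fin t → ℤ_[p], (∃ v : ZMod p → ℤ_[p], ∀ σ, ∑ i, a i • f i σ = act ρ s σ v - v) → a = 0

end

end Pool.Agent.Q283.SP
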