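import Pool.Agent.Q283.SP.Stm
import Pool.Agent.Q7.LK.Main2

/-!
# Project SP (helper283): the main theorem from `S_DES`, `S_CRI` and project LK
-/

set_option autoImplicit false

namespace Pool.Agent.Q283.SP

open NumberField IsDedekindDomain Filter Topology Finset
open Pool.Agent.Q283.LQ (Sm Box Nest nS)
open Pool.Agent.Q7.LK (Dp vl Lpw IsPow Cond AT Fits Many S_ATL S_SHAREM fits_not_pow nest_mono)

theorem mainp (hshare : S_SHAREM) (hatl : S_ATL) (hdes : S_DES) (hcri : S_CRI) : S_MAINP := by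
  intro p _ hp Ω _ _ _ _ F _ ζ hζ
  obtain ⟨y0, hy0⟩ := hshare p hp F ζ hζ
  refine ⟨y0, fun y hy d0 hd0 ε hε => ?_⟩
  obtain ⟨k0, hk0⟩ := hy0 y hy (AT p) (fun _ => 0) (hatl p hp F ζ hζ) d0 hd0 ε hε
  refine ⟨max k0 1, fun k hk z hz => nest_mono k _ _ (fun X hX => ?_) (hk0 k (le_trans (le_max_left _ _) hk) z hz)⟩
  have hk1 : 1 ≤ k := le_trans (le_max_right _ _) hk
  obtain ⟨hfin, hpos, hN⟩ := hX
  refine ⟨hfin, hpos, fun t ht => ?_⟩
  have hp2 : 2 ≤ p := (Fact.out : p.Prime).two_le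
  have h1 : 1 ≤ p ^ t - 1 := by
    have h : 2 ^ 1 ≤ p ^ t := le_trans (Nat.pow_le_pow_right (by norm_num) ht) (Nat.pow_le_pow_left hp2 t)
    omega
  have h2 := hN (p ^ t - 1) h1
  simp only [finsum_zero, pow_zero, one_mul] at h2
  have h3 : ((p ^ t - 1 : ℕ) : ℝ) = (p : ℝ) ^ t - 1 := by
    rw [Nat.cast_sub (Nat.one_le_pow _ _ (by omega))]
    simp
  rw [h3] at h2
  refine le_trans ?_ h2
  have h4 : {q ∈ (Box y X : Set (Fin k → HeightOneSpectrum (𝓞 F))) | ∃ d, Fits p y d0 z q d ∧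
          ∃ (r s n : ℕ) (S : Set ℕ) (x : Ω), 1 ≤ r ∧ p ∈ S ∧ x ^ p = (d : Ω) ∧ (p - 1) * t < n + (p - 1) ∧
            ¬ RankSha p S r F (s + 1) ∧
            RankSha p S r (F ⊔ IntermediateField.adjoin ℚ {x}) (s + n)} ⊆
      {q ∈ (Box y X : Set (Fin k → HeightOneSpectrum (𝓞 F))) | ∃ D, Fits p y d0 z q D ∧
        Many p (AT p) D (p ^ t - 1)} := by
    rintro q ⟨hq, d, hd, r, s, n, S, x, hr, hS, hx, hn, hF, hL⟩
    have hnp : ¬ IsPow p d := fits_not_pow hq hk1 hz hd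
    obtain ⟨g, hg1, hg2⟩ := hdes p hp Ω F ζ d x hζ hx hnp S r s n hS hr hF hL
    exact ⟨hq, d, hd, hcri p hp Ω F ζ hζ r d x n t g hr hx hnp hn hg1 hg2⟩
  exact_mod_cast Set.ncard_le_ncard h4 (hfin.subset (fun q hq => hq.1))

end Pool.Agent.Q283.SP
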