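import Pool.Agent.Q283.SP.Def

/-!
# Project SP (helper283): Schneider's conjecture at odd primes for Kummer extensions, statements of the parts

GOAL (`S_MAINP`).  `p` an odd prime, `F` any number field containing the `p`-th roots of unity.  Among the cyclic extensions
`L = F(d^(1/p))` of the ensemble of project LK (helper7, `Pool/Agent/Q7/LK`, complete) the share with
rank `Ш¹(O_L, Z_p(r)) >` rank `Ш¹(O_F, Z_p(r)) + (p - 1)(t - 1)` for SOME `r ≥ 1` is at most `p^(-r2) / (p^t - 1) + ε`.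

PROOF (as in project LS, `p = 2`, `Pool/Agent/Q283/LS/Stm.lean`, all parts proved, see `Pool/Agent/Q283/LS/All.lean`).  `Ш¹` of `L` splits
into `Ш¹` of `F` and the part with the twisted coefficients `O(χ^r · ψ)`, `O = ℤ_p[ζ_p]`, `ψ` the `p`-th power residue character of
`d` (`S_COR`, `S_DES`; instead of `O` we use the group ring of `ℤ/p`).  Independent cocycles can be chosen independent modulo the
uniformizer `π` (`S_SATV`), their reductions are homomorphisms to `ℤ/p`, i.e. numbers `a` modulo `p`-th powers (`S_KUM`), whose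
local behaviour is very restricted (`S_CON`): the conditions `Cond p (AT p) d a` of project LK; the count is `S_SHAREM` of LK.

Notation: `H_K = K.fixingSubgroup`, `D_j` = the elements with `Dec j`, for an embedding `j : Ω → PadicAlgCl l`; `χ = chi p`.
For `F` containing the primitive `p`-th root of unity `ζ` and `σ ∈ H_F` one has `χ(σ) ≡ 1` modulo `p` (`cyclotomicCharacter.spec`); if
`x^p ∈ F`, `x ≠ 0`, then `σ x = ζ^s x` for exactly one `s = ex ζ x σ ∈ ℤ/p`, and `ex ζ x (σ τ) = ex ζ x σ + ex ζ x τ` for `σ, τ ∈ H_F`.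
USEFUL: every `τ ∈ Aut(PadicAlgCl l / ℚ_l)` preserves the norm and maps `j(Ω)` (the algebraic numbers) to itself, so it
gives a `σ` with `Dec j σ`; if `τ` fixes `j(F)` then `σ ∈ H_F`.

ALGEBRA of the group ring `M = (ZMod p → ℤ_p)`, `A0 = {m | ∑ m i = 0}`, `π m = m - sh 1 m`:
(i) for `m ∈ A0`: `m ∈ π A0` iff `lam m = 0`.  [`m' i - m' (i - 1) = m i` has the solutions `m' i = c + ∑_(1 ≤ k ≤ i) m k`, `0 ≤ i < p`,
 and `∑ m' = p c + ∑_k (p - k) m k ≡ - lam m`, so `c` can be chosen with `∑ m' = 0` iff `lam m = 0`.]  `π` is injective on `A0`.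
(ii) `π^(p-1) A0 = p A0` (in `O = ℤ[X]/(1 + X + .. + X^(p-1))`: `(1 - X)^(p-1) = p ·` unit, see `S_LAM` of LK and `Pool/Agent/Q193/LK/Lam.lean`).
(iii) every nonzero `m ∈ A0` is `π^h u`, `u ∈ A0`, `lam u ≠ 0`, for exactly one `h`.
(iv) for `m ∈ A0`: `lam (sh s m) = lam m`; `lam (c • m) = c lam m`; elements of the group ring act on `A0 / π A0` by the sum of their
 coefficients.
(v) for `u ∈ A0`: `sh s u - u = π w`, `w = - (1 + X + .. + X^(s-1)) u`, `lam w = - s lam u`.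
-/

set_option autoImplicit false

namespace Pool.Agent.Q283.SP

open NumberField IsDedekindDomain Filter Topology Finset
open Pool.Agent.Q283.LS (Dec Inr)
open Pool.Agent.Q283.LQ (Sm Box Nest nS)
open Pool.Agent.Q7.LK (Dp vl Lpw IsPow Cond AT Fits Many S_BAS S_CPL S_HS2 S_CHEB S_ATL)

/-! ## Cocycles -/

/-- JOB NT. The cyclotomic character has infinite order on decomposition groups.  Template (`p = 2`): `Pool/Agent/Q285/LS/NT.lean`.
Proof.  Suppose `χ(σ)^r = 1` for all `σ ∈ H_K ∩ D_j`; so `χ` takes at most `r` values there.  Let `E = ℚ_l(j(K))`, finite over `ℚ_l`.  For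
every primitive `p^n`-th root `z` the Galois group of `E(z)/E` has at most `r` elements (automorphisms extend to `PadicAlgCl l`
and restrict to `H_K ∩ D_j`), so `[E(z) : E] ≤ r` for all `n`; these fields form a chain, so they all lie in one finite extension `M` of
`ℚ_l`, which contains all roots of unity of `p`-power order.  The unit ball of `M` is compact, so there are two different
such roots with `‖z - z'‖ < ‖p‖`, hence one `z'' ≠ 1` with `‖z'' - 1‖ < ‖p‖`.  But `z''^(p^(k-1)) = ζ'` is a primitive `p`-th root of unity for some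
`k ≥ 1`, `‖ζ' - 1‖ ≤ ‖z'' - 1‖ < ‖p‖`, and `‖p‖ = ∏_(0<i<p) ‖1 - ζ'^i‖ ≤ ‖1 - ζ'‖`, a contradiction. -/
def S_NT : Prop := ∀ (p : ℕ) [Fact p.Prime] (Ω : Type) [Field Ω] [CharZero Ω] [IsAlgClosed Ω] [Algebra.IsAlgebraic ℚ Ω]
  (K : IntermediateField ℚ Ω) [NumberField K] (l : ℕ) [Fact l.Prime] (j : Ω →+* PadicAlgCl l) (r : ℕ), 1 ≤ r →
  ∃ σ ∈ K.fixingSubgroup, Dec j σ ∧ chi p σ ^ r ≠ 1

/-- JOB LT (uses `S_NT`). Cocycles trivial on the inertia group have finite order on the decomposition group.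
Template (`p = 2`, same proof): `Pool/Agent/Q38/LS/LT.lean`; the proof is in the docstring of `Pool.Agent.Q283.LS.S_LT`. -/
def S_LT : Prop := ∀ (p : ℕ) [Fact p.Prime] (Ω : Type) [Field Ω] [CharZero Ω] [IsAlgClosed Ω] [Algebra.IsAlgebraic ℚ Ω]
  (K : IntermediateField ℚ Ω) [NumberField K] (l : ℕ) [Fact l.Prime] (j : Ω →+* PadicAlgCl l) (r : ℕ), 1 ≤ r →
  ∀ f : K.fixingSubgroup → ℤ_[p], IsCoc (fun σ : K.fixingSubgroup => chi p σ.1 ^ r) f →
    (∀ σ : K.fixingSubgroup, Inr j σ.1 → f σ = 0) →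
    ∃ n b : ℤ_[p], n ≠ 0 ∧ ∀ σ : K.fixingSubgroup, Dec j σ.1 → n * f σ = (chi p σ.1 ^ r - 1) * b

/-- JOB COR (uses `S_LT`). The induced cocycle.  Template (`p = 2`): `Pool/Agent/Q150/LS/COR.lean`.
Proof.  `G = H_F`, `H = H_L = {σ ∈ G | σ x = x} = {σ ∈ G | s(σ) = 0}`, `s(σ) = ex ζ x σ`, `ρ = χ^r`.  As `d` is not a `p`-th power in `F`, `X^p - d` is
irreducible over `F` and there is a `g1 ∈ G` with `g1 x = ζ x`; let `s_i = g1 ^ (i.val)` for `i ∈ ZMod p` (`s_0 = 1`, `s(s_i) = i`).  Put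
`(V f)(g)(i) = ρ(s_i) f(s_i⁻¹ g s_(i - s(g)))`; the argument is in `H`.  `V` is linear.  COCYCLE: `(V f)(g g') = (V f)(g) + act (g) ((V f)(g'))`: write
`s_i⁻¹ g g' s_(i-s(g)-s(g')) = h₁ h₂`, `h₁ = s_i⁻¹ g s_(i-s(g))`, `ρ(s_i) ρ(h₁) = ρ(g) ρ(s_(i-s(g)))`.  CONTINUITY: `s` is locally constant, `f` continuous.
If `f = (ρ - 1) b` on `H` then `(V f)(g) = act g w - w` with `w i = ρ(s_i) b`.  For `g ∈ H`: `(V f)(g)(0) = f(g)`.
CHANGE of representatives: if `s'_i = s_i k_i`, `k_i ∈ H`, then the map `V'` for the `s'_i` satisfies `(V' f)(g) = (V f)(g) + act g w - w`, `w i = ρ(s_i) f(k_i)`,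
for every cocycle `f` (use `f(k⁻¹ h k') = - ρ(k⁻¹) f(k) + ρ(k⁻¹) f(h) + ρ(k⁻¹ h) f(k')`).
LOCAL at `j`, `D = D_j`: suppose that for every embedding `j'` there are `n' ≠ 0`, `b'` with `n' f = (ρ - 1) b'` on `H ∩ D_(j')` (for `f` in `InSha` this holds with
`n' = 1` above `S`, and by `S_LT` for `K = L` elsewhere).  (a) If `D ∩ G ⊆ H`: for `g ∈ D ∩ G`: `(V f)(g)(i) = ρ(s_i) f(s_i⁻¹ g s_i)`,
`s_i⁻¹ g s_i ∈ D_(j∘s_i) ∩ H`, so with `n` = the product of the `n'` of the `j∘s_i`: `n (V f)(g) = act g v - v`, `v i = ρ(s_i) b_i'`.  (b) Otherwise `s : D ∩ G → ZMod p` is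
surjective (a nonzero homomorphism), choose representatives `s'_i ∈ D ∩ G`, `s'_0 = 1`; all arguments of `f` in `V'` are in `H ∩ D` and the
formula shows that `n' V' f` is a coboundary on `D ∩ G`; then so is `n' V f`.  In both cases `n = 1` above `S`; the sum over `i` gives the condition of
`InSha` above `S` for `C f = ∑_i (V f)(·)(i)` (`∑_i (act g v - v) i = (ρ g - 1) ∑ v`).
INERTIA (`l ∉ S`, so `l ≠ p` and `χ = 1` on the inertia groups, since different roots of unity of `p`-power order have distance `1` in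
`PadicAlgCl l`): `C f` is a homomorphism on `I_j ∩ G` to `ℤ_p`, zero on `I_j ∩ H` (there `(C f)(g) = ∑ ρ(s_i) f(s_i⁻¹ g s_i)`, and the inertia group of `j∘s_i` is
`s_i⁻¹ I_j s_i`), which contains all `p`-th powers; so it is zero. -/
def S_COR : Prop := ∀ (p : ℕ) [Fact p.Prime], p ≠ 2 → ∀ (Ω : Type) [Field Ω] [CharZero Ω] [IsAlgClosed Ω]
  [Algebra.IsAlgebraic ℚ Ω] (F : IntermediateField ℚ Ω) [NumberField F] (ζ d : F) (x : Ω), IsPrimitiveRoot ζ p →
  x ^ p = (d : Ω) → ¬ IsPow p d → ∀ (S : Set ℕ) (r : ℕ), p ∈ S → 1 ≤ r →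
  ∃ V : ((F ⊔ IntermediateField.adjoin ℚ {x}).fixingSubgroup → ℤ_[p]) →ₗ[ℤ_[p]]
      (F.fixingSubgroup → ZMod p → ℤ_[p]),
    (∀ f, InSha S (fun σ : (F ⊔ IntermediateField.adjoin ℚ {x}).fixingSubgroup => chi p σ.1 ^ r) f →
      InSha S (fun σ : F.fixingSubgroup => chi p σ.1 ^ r) (fun σ => ∑ i, V f σ i) ∧
      IsCocV (fun σ : F.fixingSubgroup => chi p σ.1 ^ r) (fun σ => ex (ζ : Ω) x σ.1) (V f) ∧
      ∀ (l : ℕ) [Fact l.Prime] (j : Ω →+* PadicAlgCl l), ∃ (n : ℤ_[p]) (v : ZMod p → ℤ_[p]), n ≠ 0 ∧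
        ∀ σ : F.fixingSubgroup, Dec j σ.1 → n • V f σ =
          act (fun σ : F.fixingSubgroup => chi p σ.1 ^ r) (fun σ => ex (ζ : Ω) x σ.1) σ v - v) ∧
    (∀ b : ℤ_[p], ∃ v : ZMod p → ℤ_[p], ∀ σ : F.fixingSubgroup, V (fun σ => (chi p σ.1 ^ r - 1) * b) σ =
      act (fun σ : F.fixingSubgroup => chi p σ.1 ^ r) (fun σ => ex (ζ : Ω) x σ.1) σ v - v) ∧
    (∀ (f : (F ⊔ IntermediateField.adjoin ℚ {x}).fixingSubgroup → ℤ_[p])
      (σ : (F ⊔ IntermediateField.adjoin ℚ {x}).fixingSubgroup) (τ : F.fixingSubgroup), τ.1 = σ.1 →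
      V f τ 0 = f σ)

/-- JOB LA3. The rank of a kernel (only Mathlib).  Template (`p = 2`, same proof): `Pool/Agent/Q285/LS/LA3.lean`. -/
def S_LA3 : Prop := ∀ (p : ℕ) [Fact p.Prime] (M N : Type) [AddCommGroup M] [Module ℤ_[p] M] [AddCommGroup N]
  [Module ℤ_[p] N] (φ : M →ₗ[ℤ_[p]] N) (s t : ℕ) (a : Fin (s + t) → M), LinearIndependent ℤ_[p] a →
  (¬ ∃ x : Fin (s + 1) → M, (∀ i, x i ∈ Submodule.span ℤ_[p] (Set.range a)) ∧
    LinearIndependent ℤ_[p] fun i => φ (x i)) →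
  ∃ b : Fin t → M, LinearIndependent ℤ_[p] b ∧ ∀ i, b i ∈ Submodule.span ℤ_[p] (Set.range a) ∧ φ (b i) = 0

/-- JOB DES (uses `S_COR`, `S_LA3`, `S_NT`). Descent to `F`.  Template (`p = 2`): `Pool/Agent/Q166/LS/DES.lean`.
Proof.  `M = (H_L → ℤ_p) / (multiples of ρ - 1)`, `N = (H_F → ℤ_p) / (multiples of ρ - 1)`, `ρ = χ^r`; `C f = ∑_i (V f)(·)(i)` induces `φ : M → N`
(`∑_i (act σ v - v) i = (ρ σ - 1) ∑ v`).  `f_1, .., f_(s+n)` from `RankSha p S r L (s + n)`; combinations of elements of `InSha` are in `InSha` (for one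
`j` add the `b`), so `¬ RankSha p S r F (s + 1)` gives the hypothesis of `S_LA3`: combinations `c_1, .., c_n` of the `f_i`, independent modulo
coboundaries, with `C c_i = (ρ - 1) b_i`.  Put `g_i = V c_i - (act δ_i - δ_i)`, `δ_i = b_i ·` (basis vector of `0`); `∑_k g_i(σ)(k) = 0`.  `InSelV`: with `n, v` from `S_COR`
`n g_i = act v' - v'`, `v' = v - n δ_i`, on `Δ = H_F ∩ D_j`; summing, `0 = (ρ σ - 1) ∑ v'` for `σ ∈ Δ`, so `∑ v' = 0` by `S_NT`.  `IndV`: if `∑ λ_i g_i = act v - v` on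
`H_F` then for `σ ∈ H_L` (`ex ζ x σ = 0`) at the component `0`: `∑ λ_i (c_i σ - (ρ σ - 1) b_i) = (ρ σ - 1) v(0)`, so `λ = 0`. -/
def S_DES : Prop := ∀ (p : ℕ) [Fact p.Prime], p ≠ 2 → ∀ (Ω : Type) [Field Ω] [CharZero Ω] [IsAlgClosed Ω]
  [Algebra.IsAlgebraic ℚ Ω] (F : IntermediateField ℚ Ω) [NumberField F] (ζ d : F) (x : Ω), IsPrimitiveRoot ζ p →
  x ^ p = (d : Ω) → ¬ IsPow p d → ∀ (S : Set ℕ) (r s n : ℕ), p ∈ S → 1 ≤ r → ¬ RankSha p S r F (s + 1) →
  RankSha p S r (F ⊔ IntermediateField.adjoin ℚ {x}) (s + n) →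
  ∃ g : Fin n → F.fixingSubgroup → ZMod p → ℤ_[p],
    (∀ i, InSelV (fun σ : F.fixingSubgroup => chi p σ.1 ^ r) (fun σ => ex (ζ : Ω) x σ.1) (g i)) ∧
    IndV (fun σ : F.fixingSubgroup => chi p σ.1 ^ r) (fun σ => ex (ζ : Ω) x σ.1) g

/-- the product of the group ring -/
noncomputable def conv {p : ℕ} [Fact p.Prime] (e m : ZMod p → ℤ_[p]) : ZMod p → ℤ_[p] := fun i => ∑ k, e k * m (i - k)

/-- JOB SATV. Saturation of a lattice of functions with values in `A0` (only Mathlib).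
Proof.  `O = ℤ_p[X] / (1 + X + .. + X^(p-1))` acts on `A0` and on the functions `w : X → A0` (`X` acts by `sh 1`; the group ring acts through `O` as `1 + X + ..`
kills `A0`).  `W` = the module of the functions `w : X → A0` with `p^m w` in the `ℤ_p`-span `V` of the `sh k (b0)` and `sh k (c i)`, for some `m`; it is stable under `sh 1`
and saturated (`p w ∈ W` implies `w ∈ W`, and also `π w ∈ W`, `w` with values in `A0`, implies `w ∈ W`, by (ii)).  There are finitely many points of `X` such that the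
restriction of `V`, hence of `W`, to them is injective, so `W` is isomorphic to a submodule of a `ℤ_p^N`, hence free of finite rank `R`.
`R ≥ n + (p - 1)`: the `c i` and the `sh k (b0)`, `0 ≤ k < p - 1`, are independent by the hypothesis (`conv e (b0) = 0` implies that `e` is constant, as `b0 x ≠ 0` for some `x` and
`A0` is torsion free over `O`).  `#(W / π W)^(p-1) = #(W / π^(p-1) W) = #(W / p W) = p^R` (`π` is injective on `W`), so `#(W / π W) = p^D`, `(p - 1) D = R ≥ n + (p - 1) > (p - 1) t`, so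
`D ≥ t + 1`.  The map `w ↦ lam ∘ w`, `W → (X → ZMod p)`, has the kernel `π W` (by (i), pointwise; `w = π w'`, `w'` with values in `A0`, is in `W`).  So its image has dimension
`≥ t + 1` over `F_p`, contains `lam ∘ b0 ≠ 0`; extend it to `t + 1` independent elements and lift.  One `m` for all `b j`. -/
def S_SATV : Prop := ∀ (p : ℕ) [Fact p.Prime], p ≠ 2 → ∀ (X : Type) (n t : ℕ) (b0 : X → ZMod p → ℤ_[p])
  (c : Fin n → X → ZMod p → ℤ_[p]), (∀ x, ∑ i, b0 x i = 0) → (∀ j x, ∑ i, c j x i = 0) →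
  (∀ (e : ZMod p → ℤ_[p]) (a : Fin n → ℤ_[p]), (∀ x, conv e (b0 x) + ∑ j, a j • c j x = 0) → a = 0) →
  (∃ x, lam (b0 x) ≠ 0) → (p - 1) * t < n + (p - 1) →
  ∃ (b : Fin t → X → ZMod p → ℤ_[p]) (m : ℕ),
    (∀ j, ∃ (e : ZMod p → ℤ_[p]) (E : Fin n → ZMod p → ℤ_[p]), ∀ x,
      (p : ℤ_[p]) ^ m • b j x = conv e (b0 x) + ∑ i, conv (E i) (c i x)) ∧
    (∀ j x, ∑ i, b j x i = 0) ∧
    ∀ (e0 : ZMod p) (e : Fin t → ZMod p), (∀ x, e0 * lam (b0 x) + ∑ j, e j * lam (b j x) = 0) → e0 = 0 ∧ e = 0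

/-! ## Kummer characters -/

/-- JOB KUM. A homomorphism to `ℤ/p` belongs to a `p`-th root.  Template (`p = 2`): `Pool/Agent/Q299/LS/KUM.lean`.
Proof.  `N = ker φ` is an open and closed normal subgroup of `H_F` of index `1` or `p`.  Index `1`: `a = 1`, `y = 1`.  Index `p`: the fixed field `M` of `N` is cyclic of degree `p`
over `F` (infinite Galois theory), and `ζ ∈ F`; choose `τ ∈ H_F` with `φ τ = 1` and `θ ∈ M` with `y = ∑_(i<p) ζ^(-i) τ^i(θ) ≠ 0` (independence of characters): `τ y = ζ y`, `σ y = y`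
for `σ ∈ N`, so `σ y = ζ^(φ σ) y`, and `a = y^p ∈ F`. -/
def S_KUM : Prop := ∀ (p : ℕ) [Fact p.Prime] (Ω : Type) [Field Ω] [CharZero Ω] [IsAlgClosed Ω] [Algebra.IsAlgebraic ℚ Ω]
  (F : IntermediateField ℚ Ω) [NumberField F] (ζ : F), IsPrimitiveRoot ζ p →
  ∀ φ : F.fixingSubgroup → ZMod p, IsLocallyConstant φ → (∀ σ τ, φ (σ * τ) = φ σ + φ τ) →
  ∃ (a : F) (y : Ω), a ≠ 0 ∧ y ^ p = (a : Ω) ∧ ∀ σ : F.fixingSubgroup, σ.1 y = (ζ : Ω) ^ (φ σ).val * y

/-- JOB PLC (uses `S_CPL`). The embedding belonging to a place.  Template (`p = 2`): `Pool/Agent/Q38/LS/PLC.lean`.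
Proof.  Existence of `j` and the first property: as in the template (it does not depend on `p`).  It determines everything: for a
uniformizer `u` of `v`: `v.valuation F x < exp (-n) ↔ ‖j x‖ < ‖j u‖^n`.  Let `E = ℚ_l(j(F))`, the closure of `j(F)`.  If `w ∈ Ω` is fixed by the `σ ∈ H_F` with `Dec j σ` then
`j w ∈ E` (every automorphism `τ` of `PadicAlgCl l` over `E` restricts to some such `σ`, so `τ (j w) = j w`; Galois theory), so there are `u_n ∈ F` with `j u_n → j w`; they form a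
Cauchy sequence for the valuation of `v`, with a limit `w' ∈ v.adicCompletion F`; polynomial relations over `F` between finitely many such `w` hold for the
`w'`.  Third property: `ξ`, `s` = the images of `z`, `y`.  Second property: the case `z = 1` and `S_CPL`. -/
def S_PLC : Prop := ∀ (p : ℕ) [Fact p.Prime] (Ω : Type) [Field Ω] [CharZero Ω] [IsAlgClosed Ω] [Algebra.IsAlgebraic ℚ Ω]
  (F : IntermediateField ℚ Ω) [NumberField F] (v : HeightOneSpectrum (𝓞 F)) (l : ℕ) [Fact l.Prime],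
  (l : 𝓞 F) ∈ v.asIdeal → ∃ j : Ω →+* PadicAlgCl l,
    (∀ x : F, v.valuation F x < 1 ↔ ‖j (x : Ω)‖ < 1) ∧
    (∀ (a : F) (y : Ω), a ≠ 0 → y ^ p = (a : Ω) → (∀ σ ∈ F.fixingSubgroup, Dec j σ → σ y = y) → Lpw p v a) ∧
    ∀ (a : F) (y z : Ω) (m : ℕ), y ^ p = (a : Ω) * z → z ^ p ^ m = 1 →
      (∀ σ ∈ F.fixingSubgroup, Dec j σ → σ y = y ∧ σ z = z) →
      ∃ ξ s : v.adicCompletion F, ξ ^ p ^ m = 1 ∧ (a : v.adicCompletion F) * ξ = s ^ p

/-- JOB CON (uses `S_BAS`, `S_CPL`, `S_PLC`, `S_NT`). The local conditions.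
Proof.  `ρ = χ^r`, `s(σ) = ex ζ x σ`; `p ∣ ρ σ - 1` for `σ ∈ H_F`.  Let `v`, `l`, `j` be as in `S_PLC`, `Δ = H_F ∩ D_j`, `n f σ = act σ v₀ - v₀` on `Δ`, `v₀ ∈ A0`, `n = p^k ·` unit.
(A) if `v₀ ∈ p^k A0` (e.g. `v₀ = 0`) then `f σ = act σ v₁ - v₁`, `v₁ ∈ A0`, on `Δ`, so `lam (f σ) = (ρ σ - 1) lam v₁ = 0`, `σ y = y` on `Δ`: `Lpw p v a`.
Otherwise `v₀ = π^h u`, `lam u ≠ 0`, `h < (p - 1) k`; with `e = (p - 1) k - h ≥ 1` and `p^k A0 = π^((p-1)k) A0`: `act σ u - u ∈ π^e A0` and `f σ = ε π^(-e) (act σ u - u)` with a unit `ε` of `O`.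
`act σ u - u = ρ σ (sh_(s σ) u - u) + (ρ σ - 1) u`, the first term is `ρ σ π w`, `lam w = - s(σ) lam u`, the second is in `p A0 = π^(p-1) A0`, `p - 1 ≥ 2`.
(B) `e = 1`: `lam (f σ) = c s(σ)` on `Δ` with a constant `c ∈ F_p`; let `i` be the natural number `< p` with `i ≡ - c`: `y x^i` is fixed by `Δ`, `(y x^i)^p = a d^i`: `Lpw p v (a d^i)`.
(C) `e ≥ 2`: `lam w = 0`, so `s(σ) = 0` on `Δ`, `x` is fixed by `Δ`: `Lpw p v d`; and `f σ = ε π^(-e) (ρ σ - 1) u`.  Let `p^(k₁)` be the largest power of `p` dividing all `ρ σ - 1`, `σ ∈ Δ`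
(`S_NT`), so `e ≤ (p - 1) k₁`; if `e < (p - 1) k₁` then `lam (f σ) = 0` on `Δ`: (A).  If `e = (p - 1) k₁`: `lam (f σ) = c' κ(σ)`, `κ(σ) = (ρ σ - 1) / p^(k₁)` modulo `p`.  Let `p^(k₀)`, `k₀ ≥ 1`, be the largest
power of `p` dividing all `χ σ - 1`, `σ ∈ Δ`, `χ σ = 1 + p^(k₀) θ(σ)`, `r = p^b r'`, `r'` prime to `p`: `χ σ ^ r - 1 ≡ r p^(k₀) θ(σ)` modulo `p^(k₀+b+1)` (`p` odd), so `k₁ = k₀ + b` and `κ = r' θ`
modulo `p`.  Let `z'` be a primitive `p^(k₀+1)`-th root of unity, `z = z'^p`; `σ z' = z'^(χ σ)`, so `σ z = z` and `σ z' = (z'^(p^(k₀)))^(θ σ) z'` on `Δ`, where `z'^(p^(k₀))` is a power `ζ^b'` of `ζ`, `b'`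
prime to `p`.  So for a suitable natural number `i` the element `y z'^i` is fixed by `Δ`, `(y z'^i)^p = a z^i`: by `S_PLC` `a ξ = s^p` in `v.adicCompletion F`, `ξ^(p^(k₀)) = 1`.
SUMMARY: `Lpw p v a`, or `Lpw p v (a d^i)` for some `i`, or `Lpw p v d` and `a ξ = s^p` with a root of unity `ξ` of `p`-power order.  `unr` (`v ∤ p`, `vl v d = 0`): `vl v a = 0` in all three cases (`S_BAS`; in the
third the valuation of `ξ` is `1`).  `ram`: the third case is impossible (`Lpw p v d` gives `vl v d = 0`), the first is `j = 0`.  `abv`: if `¬ Lpw p v d` we are in the first or second case.  If `Lpw p v d`: the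
first two cases give `Lpw p v a` (`Lpw` is closed under products and inverses), and `S_CPL` with `ξ = 1`. -/
def S_CON : Prop := ∀ (p : ℕ) [Fact p.Prime], p ≠ 2 → ∀ (Ω : Type) [Field Ω] [CharZero Ω] [IsAlgClosed Ω]
  [Algebra.IsAlgebraic ℚ Ω] (F : IntermediateField ℚ Ω) [NumberField F] (ζ : F), IsPrimitiveRoot ζ p →
  ∀ (r : ℕ) (d : F) (x : Ω), 1 ≤ r → d ≠ 0 → x ^ p = (d : Ω) →
  ∀ f : F.fixingSubgroup → ZMod p → ℤ_[p],
    InSelV (fun σ : F.fixingSubgroup => chi p σ.1 ^ r) (fun σ => ex (ζ : Ω) x σ.1) f →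
  ∀ (a : F) (y : Ω), a ≠ 0 → y ^ p = (a : Ω) →
    (∀ σ : F.fixingSubgroup, σ.1 y = (ζ : Ω) ^ (lam (f σ)).val * y) → Cond p (AT p) d a

/-- JOB CRI (uses `S_CON`, `S_SATV`, `S_KUM`). The criterion.  Template (`p = 2`): `Pool/Agent/Q241/LS/CRI.lean`.
Proof.  `ρ = χ^r`, `s = ex ζ x`; `N` = the constant function `1` in `M`, `e_0` = the basis vector of `0`.  `b0 σ = act σ e_0 - e_0 - ((ρ σ - 1) / p) N` has values in `A0` (`p ∣ ρ σ - 1`), it is a continuous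
cocycle, and `lam (b0 σ) = s(σ)` (`p` odd); `p b0 = act (p e_0 - N) - (p e_0 - N)`, so `b0` is in `InSelV` (`n = p`).  As `d` is not a `p`-th power, `s(σ) ≠ 0` for some `σ`.  Hypothesis of
`S_SATV` (`X = H_F`, `c = g`): if `conv e (b0 σ) + ∑ a_i g_i σ = 0` for all `σ`, multiply by `p`: `∑ (p a_i) g_i = act v - v`, `v = - conv e (p e_0 - N)` (`conv e` commutes with `act`), so `p a = 0`.
`b_1, .., b_t` from `S_SATV`: `p^m b_j` is a combination `conv e (b0) + ∑ conv (E i) (g i)`; so `b_j` is a cocycle (`M` is torsion free), continuous (multiplication by `p^m` on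
`ℤ_p` is a homeomorphism onto its image), and in `InSelV` (products of the `n`).  For `c ∈ F_p^t`, `c ≠ 0`, `f_c = ∑ c_j b_j` (`c_j` as natural numbers `< p`) is in `InSelV`; `φ_c = lam ∘ f_c` is a locally
constant homomorphism (`lam (act σ m) = lam m` on `A0`, as `ρ σ ≡ 1`); `S_KUM`: `a_c`, `y_c`; `S_CON`: `Cond`.  If `a_c d^i` is a `p`-th power in `F` then `y_c x^i ∈ F`, so `φ_c + i s = 0` on `H_F`,
`i lam b0 + ∑ c_j lam b_j = 0`, a contradiction to `S_SATV`; for `c ≠ c'` and `a_c / a_c' d^i` the same with `c - c'`.  There are `p^t - 1` vectors `c ≠ 0`. -/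
def S_CRI : Prop := ∀ (p : ℕ) [Fact p.Prime], p ≠ 2 → ∀ (Ω : Type) [Field Ω] [CharZero Ω] [IsAlgClosed Ω]
  [Algebra.IsAlgebraic ℚ Ω] (F : IntermediateField ℚ Ω) [NumberField F] (ζ : F), IsPrimitiveRoot ζ p →
  ∀ (r : ℕ) (d : F) (x : Ω) (n t : ℕ) (g : Fin n → F.fixingSubgroup → ZMod p → ℤ_[p]), 1 ≤ r → x ^ p = (d : Ω) →
  ¬ IsPow p d → (p - 1) * t < n + (p - 1) →
  (∀ i, InSelV (fun σ : F.fixingSubgroup => chi p σ.1 ^ r) (fun σ => ex (ζ : Ω) x σ.1) (g i)) →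
  IndV (fun σ : F.fixingSubgroup => chi p σ.1 ^ r) (fun σ => ex (ζ : Ω) x σ.1) g →
  Many p (AT p) d (p ^ t - 1)

/-! ## Base fields -/

/-- JOB REGC (uses `S_BAS`, `S_HS2`, `S_CHEB`). Numbers which are local `p`-th powers, class number prime to `p`.
Proof.  `t` from `S_HS2`.  For `x ∈ F^*`: `∑_v t v x a = 0`; `t v x a = - t v a x = 0` for `v` above `p` (`Lpw p v a`), and `t v x a = vl v x * sy v a` for the other `v` (`vl v a = 0`).  So the homomorphism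
`∏ v^(n_v) ↦ ∑_(v ∤ p) n_v sy v a` from the fractional ideals to `ℤ/p` kills the principal ideals; as `p` does not divide the class number it is zero, so `sy v a = 0` for all `v ∤ p` (directly: `v^h = (x)`,
`h` prime to `p`, `vl v x = h`, `vl w x = 0` for `w ≠ v`, so `h sy v a = 0`).  If `a` is not a `p`-th power then by `S_CHEB` (`m = 1`; `mon a c = a^c` is a `p`-th power only for `c = 0`) a positive
share of the `v` has `sy v a = 1`, while only finitely many `v` are above `p`, a contradiction. -/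
def S_REGC : Prop := ∀ (p : ℕ) [Fact p.Prime], p ≠ 2 → ∀ (F : Type) [Field F] [NumberField F] (ζ : F),
  IsPrimitiveRoot ζ p → ¬ p ∣ NumberField.classNumber F → ∀ a : F, a ≠ 0 →
  (∀ v : HeightOneSpectrum (𝓞 F), ¬ Dp p v → vl p v a = 0) →
  (∀ v : HeightOneSpectrum (𝓞 F), Dp p v → Lpw p v a) → IsPow p a

/-- JOB SAT1. Saturation of a lattice of functions, `ℤ_p` (only Mathlib).  Template (`p = 2`, same proof, here only two functions):
`Pool/Agent/Q299/LS/SAT.lean`. -/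
def S_SAT1 : Prop := ∀ (p : ℕ) [Fact p.Prime] (X : Type) (b0 c : X → ℤ_[p]), (∀ e a : ℤ_[p], (∀ x, e * b0 x + a * c x = 0) → a = 0) →
  (∃ x, ¬ (p : ℤ_[p]) ∣ b0 x) →
  ∃ (b : X → ℤ_[p]) (m : ℕ) (e a : ℤ_[p]), (∀ x, (p : ℤ_[p]) ^ m * b x = e * b0 x + a * c x) ∧
    ∀ e0 e1 : ZMod p, (∀ x, e0 * PadicInt.toZMod (b0 x) + e1 * PadicInt.toZMod (b x) = 0) → e0 = 0 ∧ e1 = 0

/-- JOB BF (uses `S_CON`, `S_SAT1`, `S_KUM`, `S_LT`, `S_NT`, `S_REGC`, `S_BAS`, `S_ATL`). Schneider's conjecture for fields with one prime above `p` and class number prime to `p`.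
Template (`p = 2`): `Pool/Agent/Q14/LS/BF.lean`.
Proof.  `ρ = χ^r` on `H = H_F`.  Suppose `RankSha p S r F 1`: `f` in `InSha S ρ`, independent modulo coboundaries.  At every `j`: `n f = (ρ - 1) b` on `H ∩ D_j`, `n ≠ 0` (`l ∈ S`: `n = 1`; `l ∉ S`: `S_LT`).
Let `p^h` be the largest power of `p` dividing all `ρ σ - 1` (`h ≥ 1`; `S_NT`), `b0 = (ρ - 1) / p^h`, a continuous cocycle, `p^h b0 = (ρ - 1)`.  `S_SAT1` (`e b0 + a f = 0` gives `p^h a f = - e (ρ - 1)`, so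
`a = 0`): `b1`, a continuous cocycle.  For `(i, i') ∈ F_p²` let `f' = i b0 + i' b1` (representatives) and `g(σ) = f'(σ) (e_0 - e_1) ∈ A0`: `g` is in `InSelV ρ s` for `x = 1`, `d = 1` (`ex ζ 1 σ = 0`, `act σ m = ρ σ • m`;
`v₀ = b (e_0 - e_1)`), `lam (g σ) = - f'(σ)` modulo `p`, a homomorphism (`ρ ≡ 1`).  `S_KUM`: `a_(i,i')`; `S_CON` (`d = 1`): `Cond p (AT p) 1 a`.  The `p²` numbers `a_(i,i')` are pairwise different up to `p`-th
powers (the quotient of two of them being a `p`-th power would give `i b0 + i' b1 = 0` modulo `p`).  At the only prime `v0` above `p` at most `p` classes are allowed (`Loc.num` of `S_ATL`, `c = 0`), so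
for two of them the quotient is `Lpw p v0`; it has `vl = 0` at the other primes (`Cond.unr`), so it is a `p`-th power by `S_REGC`, a contradiction. -/
def S_BF : Prop := ∀ (p : ℕ) [Fact p.Prime], p ≠ 2 → ∀ (Ω : Type) [Field Ω] [CharZero Ω] [IsAlgClosed Ω]
  [Algebra.IsAlgebraic ℚ Ω] (F : IntermediateField ℚ Ω) [NumberField F] (ζ : F), IsPrimitiveRoot ζ p →
  ¬ p ∣ NumberField.classNumber F →
  (∀ v v' : HeightOneSpectrum (𝓞 F), Dp p v → Dp p v' → v = v') →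
  ∀ (S : Set ℕ) (r : ℕ), p ∈ S → 1 ≤ r → ¬ RankSha p S r F 1

/-- JOB TF (uses `S_NT`). The group `Ш¹(O_(K, S), Z_p(r))` vanishes if its rank is `0`.  Template (`p = 2`, same proof):
`Pool/Agent/Q299/LS/TF.lean`. -/
def S_TF : Prop := ∀ (p : ℕ) [Fact p.Prime] (Ω : Type) [Field Ω] [CharZero Ω] [IsAlgClosed Ω] [Algebra.IsAlgebraic ℚ Ω]
  (K : IntermediateField ℚ Ω) [NumberField K] (S : Set ℕ) (r : ℕ), p ∈ S → 1 ≤ r →
  (¬ RankSha p S r K 1 ↔ ∀ f : K.fixingSubgroup → ℤ_[p], InSha S (fun σ : K.fixingSubgroup => chi p σ.1 ^ r) f →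
    ∃ b : ℤ_[p], ∀ σ : K.fixingSubgroup, f σ = (chi p σ.1 ^ r - 1) * b)

/-- the main theorem -/
def S_MAINP : Prop := ∀ (p : ℕ) [Fact p.Prime], p ≠ 2 → ∀ (Ω : Type) [Field Ω] [CharZero Ω] [IsAlgClosed Ω]
  [Algebra.IsAlgebraic ℚ Ω] (F : IntermediateField ℚ Ω) [NumberField F] (ζ : F), IsPrimitiveRoot ζ p →
  ∃ y0 : ℕ, ∀ y, y0 ≤ y → ∀ d0 : F, d0 ≠ 0 → ∀ ε : ℝ, 0 < ε →
  ∃ k0 : ℕ, ∀ k, k0 ≤ k → ∀ z : Fin k → ZMod p, (∀ i, z i ≠ 0) → Nest k fun X =>
    (Box y X : Set (Fin k → HeightOneSpectrum (𝓞 F))).Finite ∧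
    0 < ({q ∈ (Box y X : Set (Fin k → HeightOneSpectrum (𝓞 F))) | ∃ d, Fits p y d0 z q d}.ncard : ℝ) ∧
    ∀ t : ℕ, 1 ≤ t →
      ({q ∈ (Box y X : Set (Fin k → HeightOneSpectrum (𝓞 F))) | ∃ d, Fits p y d0 z q d ∧
          ∃ (r s n : ℕ) (S : Set ℕ) (x : Ω), 1 ≤ r ∧ p ∈ S ∧ x ^ p = (d : Ω) ∧ (p - 1) * t < n + (p - 1) ∧
            ¬ RankSha p S r F (s + 1) ∧
            RankSha p S r (F ⊔ IntermediateField.adjoin ℚ {x}) (s + n)}.ncard : ℝ) ≤
        ((1 / (p : ℝ)) ^ InfinitePlace.nrComplexPlaces F / (p ^ t - 1) + ε) *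
          ({q ∈ (Box y X : Set (Fin k → HeightOneSpectrum (𝓞 F))) | ∃ d, Fits p y d0 z q d}.ncard : ℝ)

end Pool.Agent.Q283.SP
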